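import Pool.Agent.MP_c69980_ag.H71.SpecA
import Pool.Agent.MP_c4d8e2_ag.H71.Iso

/-!
A smooth affine curve through a point of a variety avoiding countably many hypersurfaces.
-/

set_option autoImplicit false

namespace Pool.Agent.MP_c69980_ag.H48

open MvPolynomial Pool.Agent.MP_c4d8e2_ag.H71 Pool.Agent.MP_c69980_ag.H71

attribute [local instance] FractionRing.liftAlgebra

/-- Normalisation of a domain finite over the line. -/
lemma normalise (A : Type) [CommRing A] [IsDomain A] [Algebra ℂ A] (t : A)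
    (htr : Transcendental ℂ t) (hfin : (Polynomial.aeval t : Polynomial ℂ →ₐ[ℂ] A).Finite) :
    ∃ (B : Type) (_ : CommRing B) (_ : Algebra ℂ B) (φ : A →ₐ[ℂ] B),
      Function.Injective φ ∧ AC B (φ t) := by
  letI : Algebra (Polynomial ℂ) A := (Polynomial.aeval t : Polynomial ℂ →ₐ[ℂ] A).toRingHom.toAlgebra
  have hal : ∀ f : Polynomial ℂ, algebraMap (Polynomial ℂ) A f = Polynomial.aeval t f :=
    fun _ => rfl
  haveI : IsScalarTower ℂ (Polynomial ℂ) A := IsScalarTower.of_algebraMap_eq fun c => by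
    rw [hal]; simp
  haveI : Module.Finite (Polynomial ℂ) A := hfin
  have hinj : Function.Injective (algebraMap (Polynomial ℂ) A) :=
    transcendental_iff_injective.1 htr
  haveI : FaithfulSMul (Polynomial ℂ) A := (faithfulSMul_iff_algebraMap_injective _ _).2 hinj
  let L := FractionRing A
  let K := FractionRing (Polynomial ℂ)
  haveI : FiniteDimensional K L := inferInstance
  haveI : CharZero K := inferInstance
  haveI : Algebra.IsSeparable K L := inferInstance
  let B := integralClosure (Polynomial ℂ) L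
  have hmem : ∀ a : A, algebraMap A L a ∈ B := fun a =>
    (Algebra.IsIntegral.isIntegral (R := Polynomial ℂ) a).algebraMap
  let φ : A →ₐ[ℂ] B :=
    { toFun := fun a => ⟨algebraMap A L a, hmem a⟩
      map_one' := Subtype.ext (by simp)
      map_mul' := fun a b => Subtype.ext (by simp)
      map_zero' := Subtype.ext (by simp)
      map_add' := fun a b => Subtype.ext (by simp)
      commutes' := fun c => Subtype.ext (by
        simp only [← IsScalarTower.algebraMap_apply]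
        rfl) }
  have hφ : Function.Injective φ := fun a b h =>
    IsFractionRing.injective A L (congrArg Subtype.val h)
  have hB : Module.Finite (Polynomial ℂ) B := IsIntegralClosure.finite (Polynomial ℂ) K L B
  have hae : ∀ f : Polynomial ℂ, Polynomial.aeval (φ t) f = algebraMap (Polynomial ℂ) B f :=
    fun f => by
      rw [Polynomial.aeval_algHom_apply, ← hal]
      exact Subtype.ext (IsScalarTower.algebraMap_apply (Polynomial ℂ) A L f).symm
  refine ⟨B, inferInstance, inferInstance, φ, hφ, inferInstance,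
    integralClosure.isIntegrallyClosedOfFiniteExtension K, ?_, ?_⟩
  · intro h
    exact htr ((isAlgebraic_algHom_iff φ hφ).1 h)
  · have : (Polynomial.aeval (φ t) : Polynomial ℂ →ₐ[ℂ] B).toRingHom =
        algebraMap (Polynomial ℂ) B := RingHom.ext hae
    show RingHom.Finite (Polynomial.aeval (φ t) : Polynomial ℂ →ₐ[ℂ] B).toRingHom
    rw [this]
    exact RingHom.finite_algebraMap.2 hB

/-- Characters extend along injective maps into curves. -/
lemma extend {A B : Type} [CommRing A] [CommRing B] [Algebra ℂ A] [Algebra ℂ B] (φ : A →ₐ[ℂ] B)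
    (hφ : Function.Injective φ) (t : A)
    (hfin : (Polynomial.aeval (φ t) : Polynomial ℂ →ₐ[ℂ] B).Finite) (χ : A →ₐ[ℂ] ℂ) :
    ∃ χ₀ : B →ₐ[ℂ] ℂ, ∀ a, χ₀ (φ a) = χ a := by
  have h1 : φ.Finite := by
    refine AlgHom.Finite.of_comp_finite (f := Polynomial.aeval t) ?_
    rwa [← Polynomial.aeval_algHom]
  letI : Algebra A B := φ.toRingHom.toAlgebra
  haveI : Module.Finite A B := h1
  have hs : Function.Surjective χ := fun c => ⟨algebraMap ℂ A c, by simp⟩
  haveI : (RingHom.ker χ).IsMaximal := RingHom.ker_isMaximal_of_surjective χ hs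
  obtain ⟨M, hM, hMc⟩ := Ideal.exists_ideal_over_maximal_of_isIntegral (S := B) (RingHom.ker χ)
    (by
      intro a ha
      have : a = 0 := hφ (by rw [map_zero]; exact ha)
      simp [this])
  have hft : Algebra.FiniteType ℂ B := by
    have h2 : (Polynomial.aeval (φ t) : Polynomial ℂ →ₐ[ℂ] B).FiniteType := hfin.finiteType
    have h3 : (Algebra.ofId ℂ (Polynomial ℂ)).FiniteType :=
      RingHom.finiteType_algebraMap.2 inferInstance
    have h4 := AlgHom.FiniteType.comp h2 h3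
    rw [show (Polynomial.aeval (φ t) : Polynomial ℂ →ₐ[ℂ] B).comp (Algebra.ofId ℂ _) =
      Algebra.ofId ℂ B from Subsingleton.elim _ _] at h4
    exact RingHom.finiteType_algebraMap.1 h4
  letI := Ideal.Quotient.field M
  haveI : Module.Finite ℂ (B ⧸ M) := finite_of_finite_type_of_isJacobsonRing ℂ (B ⧸ M)
  let e : ℂ ≃ₐ[ℂ] B ⧸ M := AlgEquiv.ofBijective (Algebra.ofId ℂ (B ⧸ M))
    IsAlgClosed.algebraMap_bijective_of_isIntegral
  refine ⟨e.symm.toAlgHom.comp (Ideal.Quotient.mkₐ ℂ M), fun a => ?_⟩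
  have h5 : a - algebraMap ℂ A (χ a) ∈ RingHom.ker χ := by simp [RingHom.mem_ker]
  rw [← hMc, Ideal.mem_comap] at h5
  have h6 : φ a - algebraMap ℂ B (χ a) ∈ M := by
    have : algebraMap A B (a - algebraMap ℂ A (χ a)) = φ a - algebraMap ℂ B (χ a) := by
      show φ _ = _
      rw [map_sub, AlgHom.commutes]
    rwa [this] at h5
  have h7 : Ideal.Quotient.mk M (φ a) = e (χ a) := by
    rw [← Ideal.Quotient.eq_zero_iff_mem, map_sub, sub_eq_zero] at h6
    rw [h6]
    rfl
  show e.symm (Ideal.Quotient.mk M (φ a)) = χ a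
  rw [h7, AlgEquiv.symm_apply_apply]

/-- A point outside countably many hypersurfaces. -/
lemma avoid {s : ℕ} (N : ℕ → MvPolynomial (Fin s) ℂ) (hN : ∀ k, N k ≠ 0) :
    ∃ q : Fin s → ℂ, ∀ k, eval q (N k) ≠ 0 := by
  have ho : ∀ k, IsOpen {q : Fin s → ℂ | eval q (N k) ≠ 0} := fun k =>
    isOpen_ne_fun (MvPolynomial.continuous_eval _) continuous_const
  have hd : ∀ k, Dense {q : Fin s → ℂ | eval q (N k) ≠ 0} := fun k => by
    rw [Metric.dense_iff]
    intro x r hr
    by_contra h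
    refine hN k (funext_set (fun i => Metric.ball (x i) r)
      (fun i => infinite_of_mem_nhds (x i) (Metric.ball_mem_nhds _ hr)) fun y hy => ?_)
    rw [map_zero]
    by_contra h0
    exact h ⟨y, by rwa [ball_pi x hr], h0⟩
  obtain ⟨q, hq⟩ := (dense_iInter_of_isOpen ho hd).nonempty
  exact ⟨q, Set.mem_iInter.1 hq⟩

/-- The algebraic form of the statement. -/
lemma curve (A : Type) [CommRing A] [IsDomain A] [Algebra ℂ A] [Algebra.FiniteType ℂ A]
    (χ : A →ₐ[ℂ] ℂ) (a : ℕ → A) (ha : ∀ k, a k ≠ 0) (h0 : χ (a 0) = 0) :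
    ∃ (B : Type) (_ : CommRing B) (_ : Algebra ℂ B) (t : B) (φ : A →ₐ[ℂ] B) (χ₀ : B →ₐ[ℂ] ℂ),
      AC B t ∧ (∀ x, χ₀ (φ x) = χ x) ∧ ∀ k, φ (a k) ≠ 0 := by
  obtain ⟨s, g, hg, hgf⟩ := exists_finite_inj_algHom_of_fg ℂ A
  letI : Algebra (MvPolynomial (Fin s) ℂ) A := g.toRingHom.toAlgebra
  have hal : ∀ r, algebraMap (MvPolynomial (Fin s) ℂ) A r = g r := fun _ => rfl
  haveI : Module.Finite (MvPolynomial (Fin s) ℂ) A := hgf
  haveI : FaithfulSMul (MvPolynomial (Fin s) ℂ) A :=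
    (faithfulSMul_iff_algebraMap_injective _ _).2 hg
  have hN : ∀ k, ∃ N : MvPolynomial (Fin s) ℂ, N ≠ 0 ∧ g N ∈ Ideal.span {a k} := fun k => by
    have := Ideal.comap_ne_bot_of_integral_mem (R := MvPolynomial (Fin s) ℂ) (ha k)
      (Ideal.mem_span_singleton_self (a k)) (Algebra.IsIntegral.isIntegral _)
    obtain ⟨N, hN, hN0⟩ := Submodule.exists_mem_ne_zero_of_ne_bot this
    exact ⟨N, hN0, hN⟩
  choose N hN0 hNa using hN
  obtain ⟨q, hq⟩ := avoid N hN0
  let p : Fin s → ℂ := fun i => χ (g (X i))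
  have hp : ∀ r, χ (g r) = eval p r := fun r => by
    have : χ.comp g = aeval p := MvPolynomial.algHom_ext fun i => by simp [p]
    exact (DFunLike.congr_fun this r).trans (by rw [aeval_eq_eval])
  have hpq : q ≠ p := by
    intro h
    obtain ⟨c, hc⟩ := Ideal.mem_span_singleton'.1 (hNa 0)
    refine hq 0 ?_
    rw [h, ← hp, ← hc, map_mul, h0, mul_zero]
  obtain ⟨i, hi⟩ := Function.ne_iff.1 hpq
  let lam : MvPolynomial (Fin s) ℂ →ₐ[ℂ] Polynomial ℂ :=
    aeval fun j => Polynomial.C (p j) + Polynomial.C (q j - p j) * Polynomial.X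
  have hlam : ∀ (c : ℂ) r, (lam r).eval c = eval (fun j => p j + (q j - p j) * c) r := by
    intro c r
    have : (Polynomial.aeval c).comp lam = aeval fun j => p j + (q j - p j) * c :=
      MvPolynomial.algHom_ext fun j => by simp [lam]
    have h1 := DFunLike.congr_fun this r
    rw [AlgHom.comp_apply, Polynomial.coe_aeval_eq_eval, aeval_eq_eval] at h1
    exact h1
  let τ : MvPolynomial (Fin s) ℂ := C (q i - p i)⁻¹ * (X i - C (p i))
  have hτ : lam τ = Polynomial.X := by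
    have h1 : q i - p i ≠ 0 := sub_ne_zero.2 hi
    simp only [τ, lam, map_mul, map_sub, aeval_C, aeval_X, Polynomial.algebraMap_eq]
    rw [add_sub_cancel_left, ← mul_assoc, ← map_sub, ← map_mul, inv_mul_cancel₀ h1, map_one,
      one_mul]
  have hsec : ∀ f : Polynomial ℂ, lam (Polynomial.aeval τ f) = f := fun f => by
    rw [← Polynomial.aeval_algHom_apply, hτ, Polynomial.aeval_X_left_apply]
  haveI hP0 : (RingHom.ker lam).IsPrime := RingHom.ker_isPrime lam
  haveI hm : (RingHom.ker χ).IsPrime := RingHom.ker_isPrime χ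
  obtain ⟨Q, hQle, hQp, hQo⟩ := Ideal.exists_ideal_le_liesOver_of_le
    (p := RingHom.ker lam) (q := (RingHom.ker χ).under (MvPolynomial (Fin s) ℂ)) (RingHom.ker χ)
    (by
      intro r hr
      rw [RingHom.mem_ker] at hr
      rw [Ideal.under_def, Ideal.mem_comap, RingHom.mem_ker, hal, hp]
      have := hlam 0 r
      simp only [hr, Polynomial.eval_zero, mul_zero, add_zero] at this
      exact this.symm)
  have hQ : ∀ r, g r ∈ Q ↔ lam r = 0 := fun r => by
    have := hQo.over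
    rw [← RingHom.mem_ker, this, Ideal.under_def, Ideal.mem_comap, hal]
  let A' := A ⧸ Q
  let π : A →ₐ[ℂ] A' := Ideal.Quotient.mkₐ ℂ Q
  let t' : A' := π (g τ)
  have hae : ∀ f : Polynomial ℂ, Polynomial.aeval t' f = π (g (Polynomial.aeval τ f)) :=
    fun f => by
      rw [← Polynomial.aeval_algHom_apply g, ← Polynomial.aeval_algHom_apply π]
  have hcomp : (Polynomial.aeval t').comp lam = π.comp g := by
    refine AlgHom.ext fun r => ?_
    rw [AlgHom.comp_apply, AlgHom.comp_apply, hae]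
    refine Ideal.Quotient.eq.2 ?_
    rw [← map_sub, hQ, map_sub, hsec, sub_self]
  have hfin : (Polynomial.aeval t' : Polynomial ℂ →ₐ[ℂ] A').Finite := by
    refine AlgHom.Finite.of_comp_finite (f := lam) ?_
    rw [hcomp]
    exact AlgHom.Finite.comp (AlgHom.Finite.of_surjective π (Ideal.Quotient.mkₐ_surjective ℂ Q)) hgf
  have htr : Transcendental ℂ t' := by
    rw [transcendental_iff]
    intro f hf
    rw [hae] at hf
    have := (hQ _).1 (Ideal.Quotient.eq_zero_iff_mem.1 hf)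
    rwa [hsec] at this
  obtain ⟨B, _, _, φ, hφ, hAC⟩ := normalise A' t' htr hfin
  let χ' : A' →ₐ[ℂ] ℂ := Ideal.Quotient.liftₐ Q χ fun x hx => hQle hx
  obtain ⟨χ₀, hχ₀⟩ := extend φ hφ t' hAC.fin χ'
  refine ⟨B, inferInstance, inferInstance, φ t', φ.comp π, χ₀, hAC, fun x => ?_, fun k h => ?_⟩
  · rw [AlgHom.comp_apply, hχ₀]
    rfl
  · have h1 : π (a k) = 0 := hφ (by rw [map_zero]; exact h)
    have h2 : a k ∈ Q := Ideal.Quotient.eq_zero_iff_mem.1 h1
    have h3 : g (N k) ∈ Q := (Ideal.span_singleton_le_iff_mem Q).2 h2 (hNa k)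
    have h4 := hlam 1 (N k)
    rw [(hQ _).1 h3] at h4
    refine hq k ?_
    simpa using h4.symm

theorem through : ThroughStmt := by
  intro m Y hY hYn y hy g e hg hgY
  obtain ⟨hS, Z, W, hZ, hW, hZW⟩ := hY
  obtain ⟨j, hj⟩ := Function.ne_iff.1 y.rep_nonzero
  replace hj : y.rep j ≠ 0 := hj
  obtain ⟨w, dw, hw, hwW, hwy⟩ := hW.exists_form (P := y) (hZW ▸ hy).2
  let I : Ideal (MvPolynomial (Fin m) ℂ) :=
    vanishingIdeal ℂ {v | ∃ P ∈ Y, P.rep j ≠ 0 ∧ v = fun i => P.rep i / P.rep j}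
  have key : ∀ (H : MvPolynomial (Fin m) ℂ) (d : ℕ), H.IsHomogeneous d →
      (∀ P ∈ Y, P.rep j ≠ 0 → eval P.rep H = 0) → ∀ P ∈ Y, eval P.rep H = 0 := fun H d hH h =>
    (hS.mul_zero (isHomogeneous_X ℂ j) hH fun P hP => by
      by_cases h0 : P.rep j = 0
      · simp [h0]
      · rw [h P hP h0, mul_zero]).resolve_left fun h1 => hj (by simpa using h1 y hy)
  have hI : I.IsPrime := by
    refine ⟨fun h => ?_, fun {F G} h => ?_⟩
    · have : (1 : MvPolynomial (Fin m) ℂ) ∈ I := h ▸ Submodule.mem_top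
      simpa using this _ ⟨y, hy, hj, rfl⟩
    · obtain ⟨F', d, hF, h1⟩ := exists_homog F j
      obtain ⟨G', d', hG, h2⟩ := exists_homog G j
      have h3 := key _ _ (hF.mul hG) fun P hP h0 => by
        have := h _ ⟨P, hP, h0, rfl⟩
        rw [map_mul, mul_eq_zero, ← h1 ℂ _ h0, ← h2 ℂ _ h0] at this
        rw [map_mul]
        exact mul_eq_zero.2 this
      refine (hS.mul_zero hF hG fun P hP => by rw [← map_mul]; exact h3 P hP).imp ?_ ?_
      · rintro h4 _ ⟨P, hP, h0, rfl⟩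
        exact (h1 ℂ _ h0).1 (h4 P hP)
      · rintro h4 _ ⟨P, hP, h0, rfl⟩
        exact (h2 ℂ _ h0).1 (h4 P hP)
  have sc : ∀ (F : MvPolynomial (Fin m) ℂ) (d : ℕ), F.IsHomogeneous d → ∀ P : PS m,
      aeval (fun i => P.rep i / P.rep j) F = (P.rep j)⁻¹ ^ d * eval P.rep F := fun F d hF P => by
    rw [← eval_smul_hom hF, aeval_eq_eval]
    congr 2
    ext i
    simp [div_eq_inv_mul]
  have hform : ∀ (F : MvPolynomial (Fin m) ℂ) (d : ℕ), F.IsHomogeneous d →
      (F ∈ I ↔ ∀ P ∈ Y, eval P.rep F = 0) := fun F d hF => by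
    constructor
    · intro h
      refine key F d hF fun P hP h0 => ?_
      have := h _ ⟨P, hP, h0, rfl⟩
      rw [sc F d hF, mul_eq_zero] at this
      exact this.resolve_left (pow_ne_zero _ (inv_ne_zero h0))
    · rintro h _ ⟨P, hP, h0, rfl⟩
      rw [sc F d hF, h P hP, mul_zero]
  let A₀ := MvPolynomial (Fin m) ℂ ⧸ I
  let w₀ : A₀ := Ideal.Quotient.mk I w
  have hw₀ : w₀ ≠ 0 := fun h =>
    hwy ((hform w dw hw).1 (Ideal.Quotient.eq_zero_iff_mem.1 h) y hy)
  have hle : Submonoid.powers w₀ ≤ nonZeroDivisors A₀ :=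
    powers_le_nonZeroDivisors_of_noZeroDivisors hw₀
  let A := Localization.Away w₀
  haveI : IsDomain A := IsLocalization.isDomain_localization hle
  haveI : Algebra.FiniteType ℂ A := Algebra.FiniteType.trans (S := A₀) inferInstance inferInstance
  let θ : MvPolynomial (Fin m) ℂ →ₐ[ℂ] A :=
    (IsScalarTower.toAlgHom ℂ A₀ A).comp (Ideal.Quotient.mkₐ ℂ I)
  have hθ0 : ∀ F, θ F = 0 ↔ F ∈ I := fun F =>
    (map_eq_zero_iff _ (IsLocalization.injective A hle)).trans Ideal.Quotient.eq_zero_iff_mem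
  have hθw : IsUnit (θ w) := IsLocalization.Away.algebraMap_isUnit w₀
  have hθj : θ (X j) = 1 := by
    rw [← sub_eq_zero, ← map_one θ, ← map_sub, hθ0]
    rintro _ ⟨P, -, h0, rfl⟩
    simp [h0]
  let χ₁ : A₀ →ₐ[ℂ] ℂ := Ideal.Quotient.liftₐ I (aeval fun i => y.rep i / y.rep j)
    fun F hF => hF _ ⟨y, hy, hj, rfl⟩
  have hχ₁ : IsUnit (χ₁ w₀) := by
    refine IsUnit.mk0 _ ?_
    show aeval (fun i => y.rep i / y.rep j) w ≠ 0
    rw [sc w dw hw]
    exact mul_ne_zero (pow_ne_zero _ (inv_ne_zero hj)) hwy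
  let χ : A →ₐ[ℂ] ℂ := IsLocalization.Away.liftAlgHom w₀ hχ₁
  have hχ : ∀ F, χ (θ F) = aeval (fun i => y.rep i / y.rep j) F := fun F =>
    IsLocalization.Away.lift_eq w₀ hχ₁ _
  obtain ⟨P, hP, hPy⟩ := hYn.exists_ne y
  have hl : ∃ i, y.rep j * P.rep i - y.rep i * P.rep j ≠ 0 := by
    by_contra h
    push Not at h
    refine hPy ?_
    rw [← P.mk_rep, ← y.mk_rep]
    refine (Projectivization.mk_eq_mk_iff' ℂ _ _ _ _).2 ⟨P.rep j / y.rep j, ?_⟩
    ext i
    have := h i
    simp only [Pi.smul_apply, smul_eq_mul]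
    field_simp
    linear_combination -this
  obtain ⟨i, hi⟩ := hl
  let l : MvPolynomial (Fin m) ℂ := C (y.rep j) * X i - C (y.rep i) * X j
  have hlh : l.IsHomogeneous 1 :=
    ((isHomogeneous_X ℂ i).C_mul _).sub ((isHomogeneous_X ℂ j).C_mul _)
  let a : ℕ → A := fun k => Nat.casesOn k (θ l) fun k => θ (g k)
  have ha : ∀ k, a k ≠ 0 := by
    rintro (_ | k) h
    · exact hi (by simpa [l] using (hform l 1 hlh).1 ((hθ0 l).1 h) P hP)
    · obtain ⟨Q, hQ, hQ0⟩ := hgY k
      exact hQ0 ((hform _ _ (hg k)).1 ((hθ0 _).1 h) Q hQ)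
  have ha0 : χ (a 0) = 0 := by
    show χ (θ l) = 0
    rw [hχ, sc l 1 hlh]
    simp [l, mul_comm]
  obtain ⟨B, _, _, t, φ, χ₀, hAC, hχ₀, hφa⟩ := curve A χ a ha ha0
  have hb : ∀ F, aeval (fun i => φ (θ (X i))) F = φ (θ F) := fun F =>
    (DFunLike.congr_fun (aeval_unique (φ.comp θ)) F).symm
  have hev : ∀ (ψ : B →ₐ[ℂ] ℂ) F, eval (fun i => ψ (φ (θ (X i)))) F = ψ (φ (θ F)) := fun ψ F => by
    rw [← aeval_eq_eval]
    exact (DFunLike.congr_fun (aeval_unique ((ψ.comp φ).comp θ)) F).symm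
  have hne : ∀ ψ : B →ₐ[ℂ] ℂ, (fun i => ψ (φ (θ (X i)))) ≠ 0 := fun ψ h => by
    have := congrFun h j
    simp [hθj] at this
  refine ⟨B, inferInstance, inferInstance, t, fun i => φ (θ (X i)), χ₀, hne, hAC, fun ψ => ?_, ?_,
    fun k => ?_⟩
  · rw [hZW]
    refine ⟨?_, fun h => ?_⟩
    · refine zcl_min hZ (S := Y) (hZW ▸ Set.sdiff_subset) (mem_zcl.2 fun F d hF h => ?_)
      rw [eval_rep_mk hF, hev, (hθ0 F).2 ((hform F d hF).2 h), map_zero, map_zero]
    · have := hwW _ h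
      rw [eval_rep_mk hw, hev] at this
      exact ((hθw.map φ).map ψ).ne_zero this
  · conv_rhs => rw [← y.mk_rep]
    refine (Projectivization.mk_eq_mk_iff' ℂ _ _ _ _).2 ⟨(y.rep j)⁻¹, ?_⟩
    ext i
    simp [hχ₀, hχ, div_eq_inv_mul]
  · rw [hb]
    exact hφa (k + 1)

end Pool.Agent.MP_c69980_ag.H48
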